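import Pool.Agent.Helper25.LS.Defs

/-!
# Packet LS-TC (MP_03bcbb_an): the tail condition implies compactness
-/

set_option autoImplicit false

open Filter Topology Module

noncomputable section

namespace Pool.Agent.Helper51.LS

open Pool.Agent.Helper25.LS

theorem tail_bound (H : Type) [NormedAddCommGroup H] [InnerProductSpace ℂ H] (T : H →L[ℂ] H)
    (E₀ : Submodule ℂ H) (ε : ℝ) (hε : 0 < ε)
    (h : ∀ (m : ℕ) (e u : Fin m → H), Orthonormal ℂ e → Orthonormal ℂ u → (∀ k, e k ∈ E₀ᗮ) →
      ∑ k, ‖inner ℂ (u k) (T (e k))‖ ≤ ε) (v : H) (hv : v ∈ E₀ᗮ) : ‖T v‖ ≤ ε * ‖v‖ := by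
  rcases eq_or_ne v 0 with rfl | hv0
  · simp
  rcases eq_or_ne (T v) 0 with hT | hT
  · rw [hT, norm_zero]; positivity
  have hv1 : 0 < ‖v‖ := norm_pos_iff.2 hv0
  have hT1 : 0 < ‖T v‖ := norm_pos_iff.2 hT
  have ho : ∀ w : H, w ≠ 0 → Orthonormal ℂ (fun _ : Fin 1 => ((‖w‖ : ℂ)⁻¹) • w) := by
    intro w hw
    constructor
    · intro i
      rw [norm_smul, norm_inv, Complex.norm_real, norm_norm, inv_mul_cancel₀ (norm_ne_zero_iff.2 hw)]
    · intro i j hij
      exact absurd (Subsingleton.elim i j) hij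
  have h1 := h 1 (fun _ => ((‖v‖ : ℂ)⁻¹) • v) (fun _ => ((‖T v‖ : ℂ)⁻¹) • T v) (ho v hv0)
    (ho (T v) hT) (fun _ => Submodule.smul_mem _ _ hv)
  simp only [Finset.univ_unique, Finset.sum_singleton] at h1
  rw [map_smul, inner_smul_left, inner_smul_right, inner_self_eq_norm_sq_to_K, norm_mul, norm_mul,
    norm_pow] at h1
  simp only [map_inv₀, Complex.conj_ofReal, norm_inv, Complex.norm_real, norm_norm] at h1
  have h2 : ‖T v‖⁻¹ * (‖v‖⁻¹ * ‖T v‖ ^ 2) = ‖T v‖ / ‖v‖ := by
    field_simp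
  rw [RCLike.norm_ofReal, abs_norm, h2, div_le_iff₀ hv1] at h1
  exact h1

theorem tc : S_TC := by
  intro H _ _ _ T hT
  have hcl : IsClosed {f : H →L[ℂ] H | IsCompactOperator f} := isClosed_setOfPred_isCompactOperator
  have hmem : T ∈ closure {f : H →L[ℂ] H | IsCompactOperator f} := by
    rw [Metric.mem_closure_iff]
    intro ε hε
    obtain ⟨E₀, hfd, hE⟩ := hT (ε / 2) (by positivity)
    haveI := hfd
    refine ⟨T ∘L E₀.starProjection, ?_, ?_⟩
    · change IsCompactOperator ((T ∘L (E₀.subtypeL ∘L E₀.orthogonalProjectionOnto)) : H → H)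
      haveI : ProperSpace E₀ := FiniteDimensional.proper ℂ E₀
      have h1 : IsCompactOperator ((T ∘L E₀.subtypeL) : E₀ → H) :=
        isCompactOperator_of_locallyCompactSpace_rng _
      exact h1.comp_clm (E₀.orthogonalProjectionOnto : H →L[ℂ] E₀)
    · rw [dist_eq_norm]
      refine lt_of_le_of_lt (ContinuousLinearMap.opNorm_le_bound _ (by positivity : 0 ≤ ε / 2)
        fun x => ?_) (by linarith)
      have h2 : (T - T ∘L E₀.starProjection) x = T (x - E₀.starProjection x) := by
        simp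
      rw [h2]
      have h3 := tail_bound H T E₀ (ε / 2) (by positivity) hE (x - E₀.starProjection x)
        (Submodule.sub_starProjection_mem_orthogonal x)
      refine h3.trans ?_
      have h4 : ‖x - E₀.starProjection x‖ ≤ ‖x‖ := by
        have h5 := Submodule.norm_sq_eq_add_norm_sq_starProjection x E₀
        rw [Submodule.starProjection_orthogonal_val] at h5
        nlinarith [norm_nonneg x, norm_nonneg (x - E₀.starProjection x),
          sq_nonneg ‖E₀.starProjection x‖]
      gcongr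
  rw [hcl.closure_eq] at hmem
  exact hmem

end Pool.Agent.Helper51.LS
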